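import Mathlib
import Pool.Agent.Lib.helper33.Bhargava

set_option autoImplicit false

namespace Pool.Agent.Results.MP_1b3ee4_nt.Triple28
open Pool.Agent.Lib.helper33.Bhargava

def l1 : List ℕ := [2, 3, 5, 7, 11, 13, 17, 19, 23, 29, 37, 41, 43, 47, 53, 59, 67, 73, 79, 83,
  97, 103, 107, 109, 113, 149, 151, 173, 317]
def r : List ℕ := [5, 17, 41, 101, 191, 227, 311, 347, 461, 641]
def l2 : List ℕ := r ++ r.map (· + 2) ++ r.map (· + 6)

lemma h1 : ∀ n ∈ l1, n ∈ {p : ℕ | p.Prime} := by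
  simp only [l1, List.forall_mem_cons, Set.mem_ofPred_eq]
  norm_num

lemma hr : ∀ n ∈ r, n.Prime ∧ (n + 2).Prime ∧ (n + 6).Prime := by
  simp only [r, List.forall_mem_cons]
  norm_num

lemma h2 : ∀ n ∈ l2, n ∈ {p : ℕ | ∃ r : ℕ, (r.Prime ∧ (r + 2).Prime ∧ (r + 6).Prime) ∧
    (p = r ∨ p = r + 2 ∨ p = r + 6)} := by
  simp only [l2, List.mem_append, List.mem_map]
  rintro n ((h | ⟨m, h, rfl⟩) | ⟨m, h, rfl⟩) <;> exact ⟨_, hr _ h, by simp⟩

/-- At the even index `n = 28` both factorials are defined and the conjectured identity fails. -/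
theorem result : Defined P3 28 ∧ Defined P 28 ∧
    ∀ a b, IsOrds P3 a → IsOrds P b →
      fact a 28 ≠ Nat.factorial 3 * w 2 28 * w 3 28 * fact b 28 := by
  have d2 : Defined P3 28 := defined 28 _ (sub_image l2 h2) (by decide +kernel) 1000
    (by decide +kernel)
  have d1 : Defined P 28 := defined 28 _ (sub_image l1 h1) (by decide +kernel) 1000
    (by decide +kernel)
  refine ⟨d2, d1, fun a b ha hb => main ⟨29, by norm_num⟩ ?_ d2 d1 _ (sub_image l1 h1)
    (by decide +kernel) _ ?_ ha hb⟩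
  · rintro _ ⟨n, ⟨m, ⟨p1, p2, p3⟩, rfl | rfl | rfl⟩, rfl⟩ h
    · obtain rfl : 29 = n := (Nat.prime_dvd_prime_iff_eq (by norm_num) p1).1 (by exact_mod_cast h)
      norm_num at p3
    · have : 29 = m + 2 := (Nat.prime_dvd_prime_iff_eq (by norm_num) p2).1 (by exact_mod_cast h)
      obtain rfl : m = 27 := by omega
      norm_num at p1
    · have : 29 = m + 6 := (Nat.prime_dvd_prime_iff_eq (by norm_num) p3).1 (by exact_mod_cast h)
      obtain rfl : m = 23 := by omega
      norm_num at p2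
  · rw [w_small 2 28 2 (by norm_num) (by norm_num), w_small 3 28 0 (by norm_num) (by norm_num)]
    norm_num [Nat.factorial]

end Pool.Agent.Results.MP_1b3ee4_nt.Triple28
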